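import Pool.Agent.V11244.Translates

/-! A Borel subset of the Cantor group with uncountably many pairwise disjoint translates
but without a perfect family of pairwise disjoint translates (in ZFC). -/

namespace Pool.Agent.Results.MP_15e54c_lc.UncountableNotPerfect

open Set Topology Classical
open Pool.Agent.V11244.Translates

/-- The Cantor group `2^ω` (coordinatewise addition modulo 2, product topology). -/
abbrev Cantor := ℕ → ZMod 2

/-- The translate `B + x`. -/
def translate (B : Set Cantor) (x : Cantor) : Set Cantor := {z | ∃ b ∈ B, z = b + x}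

/-- The translates of `B` by elements of `H` are pairwise disjoint. -/
def DisjointTranslates (B H : Set Cantor) : Prop :=
  ∀ x ∈ H, ∀ y ∈ H, x ≠ y → translate B x ∩ translate B y = ∅

/-- Index set. -/
abbrev Ix := (Str ⊕ Str) ⊕ ((Str ⊕ Str) ⊕ Fin 3)

/-- Target group. -/
abbrev Tgt := (G × G) × ((G × G) × (Fin 3 → ZMod 2))

lemma exists_index : Nonempty (Ix ≃ ℕ) := by
  have : Infinite Ix := by
    have : Function.Injective (fun n : ℕ => (Sum.inl (Sum.inl ⟨n, fun _ => true⟩) : Ix)) := by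
      intro a b h
      simp only [Sum.inl.injEq, Sigma.mk.injEq] at h
      exact h.1
    exact Infinite.of_injective _ this
  exact nonempty_equiv_of_countable (α := Ix) (β := ℕ)

/-- A fixed bijection of the index set with `ℕ`. -/
noncomputable def j : Ix ≃ ℕ := exists_index.some

/-- Splitting of the coordinates. -/
noncomputable def Phi (x : Cantor) : Tgt :=
  ((fun s => x (j (Sum.inl (Sum.inl s))), fun s => x (j (Sum.inl (Sum.inr s)))),
    ((fun s => x (j (Sum.inr (Sum.inl (Sum.inl s)))),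
      fun s => x (j (Sum.inr (Sum.inl (Sum.inr s))))), fun k => x (j (Sum.inr (Sum.inr k)))))

lemma continuous_Phi : Continuous Phi := by
  unfold Phi
  refine Continuous.prodMk (Continuous.prodMk ?_ ?_) (Continuous.prodMk
    (Continuous.prodMk ?_ ?_) ?_) <;>
  exact continuous_pi fun s => continuous_apply _

lemma Phi_add (x y : Cantor) : Phi (x + y) = Phi x + Phi y := rfl

lemma Phi_injective : Function.Injective Phi := by
  intro x y h
  simp only [Phi, Prod.mk.injEq] at h
  obtain ⟨⟨h1, h2⟩, ⟨h3, h4⟩, h5⟩ := h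
  have key : ∀ i : Ix, x (j i) = y (j i) := by
    rintro ((s | s) | ((s | s) | k))
    · exact congrFun h1 s
    · exact congrFun h2 s
    · exact congrFun h3 s
    · exact congrFun h4 s
    · exact congrFun h5 k
  funext n
  have := key (j.symm n)
  simpa using this

lemma Phi_surjective : Function.Surjective Phi := by
  rintro ⟨⟨a, b⟩, ⟨c, d⟩, t⟩
  refine ⟨fun n => Sum.elim (Sum.elim a b) (Sum.elim (Sum.elim c d) t) (j.symm n), ?_⟩
  simp [Phi]

lemma tgt_add_self (x : Tgt) : x + x = 0 := by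
  obtain ⟨⟨a, b⟩, ⟨c, d⟩, t⟩ := x
  simp only [Prod.mk_add_mk, G_add_self]
  have : t + t = 0 := by funext k; exact zmod_add_self _
  rw [this]; rfl

lemma cantor_add_self (x : Cantor) : x + x = 0 := by
  funext k; exact zmod_add_self _

/-- the three special tags -/
def T1 : Set ((G × G) × (Fin 3 → ZMod 2)) := {(0, ![0,0,0]), (0, ![1,0,0]), (0, ![0,1,0])}
/-- the special slice -/
def R1 : Set ((G × G) × (Fin 3 → ZMod 2)) := {r | r.2 = ![1,1,1]}

/-- The forbidden differences. -/
def E2 : Set (G × G) := {p | p.1 = p.2 ∧ p.1 ∈ E}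

/-- The Borel set in the target group. -/
def B' : Set Tgt := {p | (p.1.2 = 0 ∧ p.2 ∈ T1) ∨ (p.1.1 = 0 ∧ p.2 ∉ T1 ∧ p.2 ∉ R1) ∨
  (p.2 ∈ R1 ∧ ((p.1 = 0 ∧ p.2.1 ∉ E2) ∨ (p.1 = p.2.1 ∧ p.1 ∉ E2)))}

lemma fin3_cases (c : Fin 3 → ZMod 2) : c = ![0,0,0] ∨ c = ![1,0,0] ∨ c = ![0,1,0] ∨ c = ![0,0,1] ∨
    c = ![1,1,0] ∨ c = ![1,0,1] ∨ c = ![0,1,1] ∨ c = ![1,1,1] := by
  revert c; decide

lemma split (r : (G × G) × (Fin 3 → ZMod 2)) (hr : r ≠ 0) :
    ∃ t ∈ T1, r + t ∉ T1 ∧ r + t ∉ R1 := by
  obtain ⟨k, c⟩ := r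
  by_cases hk : k = 0
  · subst hk
    rcases fin3_cases c with h | h | h | h | h | h | h | h
    · exfalso; apply hr; subst h; 
      have : (![0,0,0] : Fin 3 → ZMod 2) = 0 := by decide
      rw [this]; rfl
    all_goals subst h
    · refine ⟨(0, ![0,1,0]), by simp [T1], ?_⟩
      have : ((0, ![1,0,0]) : (G × G) × (Fin 3 → ZMod 2)) + (0, ![0,1,0]) = (0, ![1,1,0]) := by
        simp
      rw [this]
      simp [T1, R1]
    · refine ⟨(0, ![1,0,0]), by simp [T1], ?_⟩
      have : ((0, ![0,1,0]) : (G × G) × (Fin 3 → ZMod 2)) + (0, ![1,0,0]) = (0, ![1,1,0]) := by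
        simp
      rw [this]
      simp [T1, R1]
    · refine ⟨(0, ![0,0,0]), by simp [T1], ?_⟩
      simp [T1, R1]
    · refine ⟨(0, ![0,0,0]), by simp [T1], ?_⟩
      simp [T1, R1]
    · refine ⟨(0, ![0,0,0]), by simp [T1], ?_⟩
      simp [T1, R1]
    · refine ⟨(0, ![0,0,0]), by simp [T1], ?_⟩
      simp [T1, R1]
    · refine ⟨(0, ![1,0,0]), by simp [T1], ?_⟩
      have : ((0, ![1,1,1]) : (G × G) × (Fin 3 → ZMod 2)) + (0, ![1,0,0]) = (0, ![0,1,1]) := by
        rw [Prod.mk_add_mk]; congr 1; decide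
      rw [this]
      simp [T1, R1]
  · by_cases hc : c = ![1,1,1]
    · refine ⟨(0, ![1,0,0]), by simp [T1], ?_, ?_⟩
      · simp [T1, hk]
      · subst hc
        show ¬ (![1,1,1] + ![1,0,0] : Fin 3 → ZMod 2) = ![1,1,1]
        decide
    · refine ⟨(0, ![0,0,0]), by simp [T1], ?_, ?_⟩
      · simp [T1, hk]
      · show ¬ (c + ![0,0,0] : Fin 3 → ZMod 2) = ![1,1,1]
        have : (![0,0,0] : Fin 3 → ZMod 2) = 0 := by decide
        rw [this, add_zero]; exact hc

lemma T1_not_R1 {r : (G × G) × (Fin 3 → ZMod 2)} (h : r ∈ T1) : r ∉ R1 := by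
  simp only [T1, mem_insert_iff, mem_singleton_iff] at h
  rcases h with rfl | rfl | rfl <;> simp [R1]

/-- The differences of `B'`. -/
lemma diff_B' (x : Tgt) : (∃ b ∈ B', x + b ∈ B') ↔ ¬ (x.1 ∈ E2 ∧ x.2 = 0) := by
  constructor
  · rintro ⟨b, hb, hb'⟩ ⟨hx1, hx2⟩
    obtain ⟨u, r⟩ := b
    obtain ⟨v, r'⟩ := x
    simp only at hx1 hx2
    subst hx2
    have hv0 : v.1 ≠ 0 := fun h => zero_notMem_E (h ▸ hx1.2)
    have hv1 : v.2 ≠ 0 := fun h => hv0 (hx1.1.trans h)
    simp only [Prod.mk_add_mk, zero_add] at hb'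
    rcases hb with ⟨h1, h2⟩ | ⟨h1, h2, h3⟩ | ⟨h1, h2⟩
    · rcases hb' with ⟨g1, g2⟩ | ⟨g1, g2, g3⟩ | ⟨g1, g2⟩
      · simp only [Prod.snd_add] at g1 h1
        rw [h1, add_zero] at g1
        exact hv1 g1
      · exact g2 h2
      · exact T1_not_R1 h2 g1
    · rcases hb' with ⟨g1, g2⟩ | ⟨g1, g2, g3⟩ | ⟨g1, g2⟩
      · exact h2 g2
      · simp only [Prod.fst_add] at g1 h1
        rw [h1, add_zero] at g1
        exact hv0 g1
      · exact h3 g1
    · rcases hb' with ⟨g1, g2⟩ | ⟨g1, g2, g3⟩ | ⟨g1, g2⟩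
      · exact T1_not_R1 g2 h1
      · exact g3 h1
      · simp only at h2 g2
        rcases h2 with ⟨h2, h3⟩ | ⟨h2, h3⟩
        · rcases g2 with ⟨g2, g3⟩ | ⟨g2, g3⟩
          · rw [h2, add_zero] at g2
            exact hv0 (by rw [g2]; rfl)
          · rw [h2, add_zero] at g3
            exact g3 hx1
        · rcases g2 with ⟨g2, g3⟩ | ⟨g2, g3⟩
          · have : v = u := by
              have e1 : v.1 = u.1 := G_add_eq_zero.1 (congrArg Prod.fst g2)
              have e2 : v.2 = u.2 := G_add_eq_zero.1 (congrArg Prod.snd g2)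
              exact Prod.ext e1 e2
            rw [this] at hx1
            exact h3 hx1
          · rw [h2] at g2
            exact hv0 (by
              have := add_eq_right.1 g2
              rw [this]; rfl)
  · intro h
    by_cases hx : x.2 = 0
    · have hE : x.1 ∉ E2 := fun h' => h ⟨h', hx⟩
      refine ⟨(0, (x.1, ![1,1,1])), ?_, ?_⟩
      · right; right
        refine ⟨by simp [R1], Or.inl ⟨rfl, hE⟩⟩
      · have : x + (0, (x.1, ![1,1,1])) = (x.1, (x.1, ![1,1,1])) := by
          obtain ⟨x1, x2⟩ := x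
          simp only at hx
          subst hx
          simp
        rw [this]
        right; right
        exact ⟨by simp [R1], Or.inr ⟨rfl, hE⟩⟩
    · obtain ⟨t, ht, h1, h2⟩ := split x.2 hx
      refine ⟨((x.1.1, 0), t), Or.inl ⟨rfl, ht⟩, Or.inr (Or.inl ⟨?_, h1, h2⟩)⟩
      show x.1.1 + x.1.1 = 0
      exact G_add_self _

/-- The Borel set. -/
def B : Set Cantor := Phi ⁻¹' B'

lemma mem_E2_zero : (0 : G × G) ∉ E2 := fun h => zero_notMem_E h.2

lemma borel_G : (borel G) = (MeasurableSpace.pi : MeasurableSpace G) :=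
  (BorelSpace.measurable_eq (α := G)).symm

lemma borel_Tgt : BorelSpace Tgt := by
  have h1 : BorelSpace (G × G) := inferInstance
  have h2 : SecondCountableTopology (G × G) := inferInstance
  have h3 : BorelSpace ((G × G) × (Fin 3 → ZMod 2)) := Prod.borelSpace
  exact Prod.borelSpace

lemma measurable_B : @MeasurableSet Cantor (borel Cantor) B := by
  have hTgt : BorelSpace Tgt := borel_Tgt
  borelize Cantor
  have hE' : MeasurableSet E := by
    have := measurableSet_E
    rwa [borel_G] at this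
  have mPhi : Measurable Phi := continuous_Phi.measurable
  have m1 : MeasurableSet (T1) := by
    unfold T1
    exact (Set.toFinite _).measurableSet
  have m2 : MeasurableSet R1 := by
    have : R1 = Prod.snd ⁻¹' ({![1,1,1]} : Set (Fin 3 → ZMod 2)) := rfl
    rw [this]
    exact (measurableSet_singleton _).preimage measurable_snd
  have m3 : MeasurableSet E2 := by
    have : E2 = {p : G × G | p.1 = p.2} ∩ Prod.fst ⁻¹' E := rfl
    rw [this]
    exact (isClosed_eq continuous_fst continuous_snd).measurableSet.inter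
      (hE'.preimage measurable_fst)
  have m4 : MeasurableSet B' := by
    have : B' = (({p : Tgt | p.1.2 = 0} ∩ Prod.snd ⁻¹' T1) ∪
      (({p : Tgt | p.1.1 = 0} ∩ (Prod.snd ⁻¹' T1)ᶜ ∩ (Prod.snd ⁻¹' R1)ᶜ) ∪
      ((Prod.snd ⁻¹' R1) ∩ (({p : Tgt | p.1 = 0} ∩ ((fun p : Tgt => p.2.1) ⁻¹' E2)ᶜ) ∪
        ({p : Tgt | p.1 = p.2.1} ∩ (Prod.fst ⁻¹' E2)ᶜ))))) := by
      ext p
      simp only [B', mem_ofPred_eq, mem_union, mem_inter_iff, mem_preimage, mem_compl_iff,
        and_assoc]
    rw [this]
    have c1 : MeasurableSet {p : Tgt | p.1.2 = 0} :=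
      (isClosed_eq (continuous_snd.comp continuous_fst) continuous_const).measurableSet
    have c2 : MeasurableSet {p : Tgt | p.1.1 = 0} :=
      (isClosed_eq (continuous_fst.comp continuous_fst) continuous_const).measurableSet
    have c3 : MeasurableSet {p : Tgt | p.1 = 0} :=
      (isClosed_eq continuous_fst continuous_const).measurableSet
    have c4 : MeasurableSet {p : Tgt | p.1 = p.2.1} :=
      (isClosed_eq continuous_fst (continuous_fst.comp continuous_snd)).measurableSet
    have d1 : MeasurableSet (Prod.snd ⁻¹' T1 : Set Tgt) := m1.preimage measurable_snd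
    have d2 : MeasurableSet (Prod.snd ⁻¹' R1 : Set Tgt) := m2.preimage measurable_snd
    have d3 : MeasurableSet ((fun p : Tgt => p.2.1) ⁻¹' E2) :=
      m3.preimage (measurable_fst.comp measurable_snd)
    have d4 : MeasurableSet (Prod.fst ⁻¹' E2 : Set Tgt) := m3.preimage measurable_fst
    exact (c1.inter d1).union (((c2.inter d1.compl).inter d2.compl).union
      (d2.inter ((c3.inter d3.compl).union (c4.inter d4.compl))))
  exact m4.preimage mPhi

lemma disjoint_iff (x y : Cantor) : translate B x ∩ translate B y = ∅ ↔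
    (Phi (x + y)).1 ∈ E2 ∧ (Phi (x + y)).2 = 0 := by
  have key : (∃ b ∈ B', Phi (x + y) + b ∈ B') ↔ (translate B x ∩ translate B y).Nonempty := by
    constructor
    · rintro ⟨b, hb, hb'⟩
      obtain ⟨c, rfl⟩ := Phi_surjective b
      refine ⟨c + x, ⟨c, hb, rfl⟩, ⟨x + y + c, hb', ?_⟩⟩
      have : x + y + c + y = c + x + (y + y) := by abel
      rw [this, cantor_add_self, add_zero]
    · rintro ⟨z, ⟨b, hb, rfl⟩, ⟨b', hb', h⟩⟩
      refine ⟨Phi b, hb, ?_⟩
      have : x + y + b = b' := by
        have : x + y + b = (b + x) + y := by abel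
        rw [this, h, add_assoc, cantor_add_self, add_zero]
      rw [← Phi_add, this]
      exact hb'
  rw [diff_B'] at key
  rw [← not_nonempty_iff_eq_empty, ← key, not_not]

/-- **Theorem (ZFC).** There is a Borel subset of the Cantor group which has uncountably many
pairwise disjoint translates but no perfect family of pairwise disjoint translates. -/
theorem result : ∃ B : Set Cantor, @MeasurableSet Cantor (borel Cantor) B ∧
    (∃ H : Set Cantor, ¬ H.Countable ∧ DisjointTranslates B H) ∧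
    ¬ ∃ P : Set Cantor, P.Nonempty ∧ Perfect P ∧ DisjointTranslates B P := by
  refine ⟨B, measurable_B, ?_, ?_⟩
  · obtain ⟨H, hH, hR⟩ := exists_clique
    choose g hg using Phi_surjective
    let k : C → Cantor := fun h => g ((ev h, ev h), 0)
    have hk : ∀ h, Phi (k h) = ((ev h, ev h), 0) := fun h => hg _
    have hkinj : Function.Injective k := by
      intro a b hab
      have h1 := hk a
      rw [hab, hk b] at h1
      simp only [Prod.mk.injEq] at h1
      exact ev_injective h1.1.1.symm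
    refine ⟨k '' H, fun h => hH (Set.countable_of_injective_of_countable_image
      (hkinj.injOn) h), ?_⟩
    rintro _ ⟨a, ha, rfl⟩ _ ⟨b, hb, rfl⟩ hab
    have hab' : a ≠ b := fun h => hab (by rw [h])
    rw [disjoint_iff, Phi_add, hk, hk]
    refine ⟨?_, by simp⟩
    show ev a + ev b = ev a + ev b ∧ ev a + ev b ∈ E
    refine ⟨rfl, ?_⟩
    obtain ⟨n, hn | hn⟩ := hR a ha b hb hab'
    · exact ⟨n, a, by rw [hn]; exact hab'.symm, by rw [hn]⟩
    · exact ⟨n, b, by rw [hn]; exact hab', by rw [hn, add_comm]⟩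
  · rintro ⟨P, hne, hP, hd⟩
    refine no_perfect_clique (fun x => (Phi x).1.1)
      (continuous_fst.comp (continuous_fst.comp continuous_Phi)) P hP hne ?_ ?_
    · intro x hx y hy hxy
      by_contra hne'
      have := ((disjoint_iff x y).1 (hd x hx y hy hne')).1.2
      rw [Phi_add] at this
      have h0 : (Phi x + Phi y).1.1 = (Phi x).1.1 + (Phi y).1.1 := rfl
      simp only at hxy
      rw [h0, hxy, G_add_self] at this
      exact zero_notMem_E this
    · intro x hx y hy hxy
      have := ((disjoint_iff x y).1 (hd x hx y hy hxy)).1.2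
      rw [Phi_add] at this
      exact this

end Pool.Agent.Results.MP_15e54c_lc.UncountableNotPerfect
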